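import Mathlib
import Pool.Agent.Q264.PertQ

/-!
# The sign pattern of the perturbed Hofstadter sequence is not eventually 4-regular

With `A(m) = (Q(2m-1)+1)/2`, `B(m) = (Q(2m)+1)/2`, `a_r = (2 4^{r+1} + 1)/3`, `u_r = 2 a_r - r - 2` and
`v_r = 4 a_r - r - 2`, one has `A = B = a_r` at `u_r` and `B > A` strictly between `u_r` and `v_r`. So the sequence of the
signs of `B - A` has a long constant run which starts right after `u_r`. As `3 u_r = 4^{r+2} - 3 r - 4`, the starts `u_r`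
with runs of length `≥ 4^e` run through all residues modulo `4^e`, and such a sequence is not 4-automatic.
-/

set_option autoImplicit false

namespace Pool.Agent.Results.MP_f18a8d_nt.NotRegular

/-- the conditions which define the sequence `Q(1), Q(2), ...` (the values of `Q` at `n ≤ 0` do not matter):
`Q(1) = Q(2) = 1`, and for `n ≥ 3` the indices `n - Q(n-1)` and `n - Q(n-2)` lie in `[1, n-1]` and
`Q(n) = Q(n - Q(n-1)) + Q(n - Q(n-2)) + (-1)^n` -/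
def IsQ (Q : ℤ → ℤ) : Prop :=
  Q 1 = 1 ∧ Q 2 = 1 ∧ ∀ n : ℤ, 3 ≤ n →
    (1 ≤ n - Q (n - 1) ∧ n - Q (n - 1) ≤ n - 1) ∧ (1 ≤ n - Q (n - 2) ∧ n - Q (n - 2) ≤ n - 1) ∧
    Q n = Q (n - Q (n - 1)) + Q (n - Q (n - 2)) + (-1) ^ n.toNat

/-- `t : ℕ → ℤ` is `k`-regular: the `ℤ`-module spanned by its `k`-kernel is finitely generated -/
def KRegular (k : ℕ) (t : ℕ → ℤ) : Prop :=
  (Submodule.span ℤ {f : ℕ → ℤ | ∃ e c : ℕ, c < k ^ e ∧ f = fun n => t (k ^ e * n + c)}).FG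

/-- `s(n) = sign (Q(n+1) - Q(n))`, `n ≥ 1` -/
def s (Q : ℤ → ℤ) (n : ℕ) : ℤ := (Q (n + 1) - Q n).sign

/-- `s` is eventually `k`-regular -/
def EventuallyRegular (k : ℕ) (s : ℕ → ℤ) : Prop :=
  ∃ t : ℕ → ℤ, KRegular k t ∧ ∃ N : ℕ, ∀ n : ℕ, N ≤ n → s n = t n

theorem isQ_iff (Q : ℤ → ℤ) : IsQ Q ↔ Q264.PertQ.IsQ Q := by
  unfold IsQ Q264.PertQ.IsQ
  constructor
  · rintro ⟨h1, h2, h3⟩
    refine ⟨h1, h2, fun n hn => ?_⟩
    obtain ⟨a, b, c⟩ := h3 n hn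
    exact ⟨⟨by omega, by omega⟩, ⟨by omega, by omega⟩, c⟩
  · rintro ⟨h1, h2, h3⟩
    refine ⟨h1, h2, fun n hn => ?_⟩
    obtain ⟨a, b, c⟩ := h3 n hn
    exact ⟨⟨by omega, by omega⟩, ⟨by omega, by omega⟩, c⟩

/-- **Q1**: the answer is no. -/
theorem result : (∃ Q : ℤ → ℤ, IsQ Q) ∧ (∀ Q Q' : ℤ → ℤ, IsQ Q → IsQ Q' → ∀ n : ℤ, 1 ≤ n → Q n = Q' n) ∧
    ∀ Q : ℤ → ℤ, IsQ Q → ¬ EventuallyRegular 4 (s Q) := by
  refine ⟨⟨_, (isQ_iff _).2 Q264.PertQ.isQ⟩, fun Q Q' h h' => ((isQ_iff Q).1 h).unique ((isQ_iff Q').1 h'), ?_⟩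
  rintro Q hQ ⟨t, ht, N, hN⟩
  have huniq := ((isQ_iff Q).1 hQ).unique Q264.PertQ.isQ
  refine Q264.PertQ.main t ht N fun n h1 h2 => ?_
  rw [← hN n h1]
  unfold s
  rw [huniq (n + 1) (by omega), huniq n (by omega)]

end Pool.Agent.Results.MP_f18a8d_nt.NotRegular
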